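import Pool.Agent.Lib.MP_7f1c6c_co.Threshold

/-!
# The bichromatic Maker-Breaker k-hole game: the threshold is k = 6

For `k ≤ 5` Breaker has no winning strategy, whatever the (constant) bias `1 : s`;
for `k ≥ 6` Breaker wins already with bias `1 : 16`.
-/

namespace Pool.Agent.Results.MP_7f1c6c_co.ThresholdSix

open Pool.Agent.Lib.MP_7f1c6c_co

/-- For `k ≤ 5` and every `s`, Breaker has no winning strategy in the bichromatic
Maker-Breaker `k`-hole game with bias `1 : s`; for `k ≥ 6` and `s ≥ 16` Breaker has one. -/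
theorem result :
    (∀ k ≤ 5, ∀ s : ℕ, ¬ BreakerWins k s) ∧
      (∀ k ≥ 6, ∀ s ≥ 16, BreakerWins k s) :=
  ⟨fun _ hk s => not_breakerWins_le_five hk s, fun _ hk _ hs => breakerWins_of_six_le hk hs⟩

end Pool.Agent.Results.MP_7f1c6c_co.ThresholdSix
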